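import Pool.Agent.Helper37.HK.Hom
import Pool.Agent.Helper64.HK.Line

/-!
# The Zariski closure of the cone of rational points

`Zc L c P`: every polynomial over `L` which vanishes at all `K`-points of the cone
`{Q | OnX c Q}` (zero vectors are allowed) vanishes at `P`.
-/

set_option autoImplicit false

namespace Pool.Agent.Helper37.HK

open Pool.Agent.Helper64.HK
open Pool.Agent.Helper28.HN (I aff)
open MvPolynomial

variable {k m : ℕ} {a : Fin (k + 1) → Fin (m + 1)} {K : Type*} [Field K]
  {L : Type*} [Field L] [Algebra K L]

/-- The Zariski closure over `L` of the `K`-points of the cone. -/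
def Zc (c : Ix a → K) (P : Fin (k + 1) → I m → L) : Prop :=
  ∀ F : MvPolynomial (Fin (k + 1) × I m) L,
    (∀ Q : Fin (k + 1) → I m → K, OnX c Q →
      aeval (fun e => algebraMap K L (Q e.1 e.2)) F = 0) →
    aeval (fun e => P e.1 e.2) F = 0

/-- Rational points. -/
theorem z_of {c : Ix a → K} {Q : Fin (k + 1) → I m → K} (h : OnX c Q) :
    Zc (L := L) c fun l i => algebraMap K L (Q l i) := fun _ hF => hF Q h

/-- The closure is stable under the polynomial maps which map rational points to rational
points. -/
theorem z_map {c : Ix a → K} {P : Fin (k + 1) → I m → L} (hP : Zc c P)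
    (φ : Fin (k + 1) → I m → MvPolynomial (Fin (k + 1) × I m) L)
    (hφ : ∀ Q : Fin (k + 1) → I m → K, OnX c Q → ∃ Q' : Fin (k + 1) → I m → K, OnX c Q' ∧
      ∀ l i, aeval (fun e => algebraMap K L (Q e.1 e.2)) (φ l i) = algebraMap K L (Q' l i)) :
    Zc c fun l i => aeval (fun e => P e.1 e.2) (φ l i) := by
  intro F hF
  have h1 := hP (bind₁ (fun e => φ e.1 e.2) F) fun Q hQ => by
    obtain ⟨Q', hQ', h⟩ := hφ Q hQ
    rw [aeval_bind₁]
    have : (fun e : Fin (k + 1) × I m => aeval (fun e => algebraMap K L (Q e.1 e.2))
        (φ e.1 e.2)) = fun e => algebraMap K L (Q' e.1 e.2) := by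
      funext e
      exact h e.1 e.2
    rw [this]
    exact hF Q' hQ'
  rw [aeval_bind₁] at h1
  exact h1

/-- The closure lies on the variety. -/
theorem z_on {c : Ix a → K} {P : Fin (k + 1) → I m → L} (hP : Zc c P) :
    OnX (fun e => algebraMap K L (c e)) P := by
  intro i
  have nat : ∀ R : Fin (k + 1) → I m → L,
      aeval (fun e : Fin (k + 1) × I m => R e.1 e.2) (Ef (fun e => C (algebraMap K L (c e))) i
        fun l i => (X (l, i) : MvPolynomial (Fin (k + 1) × I m) L)) =
      Ef (fun e => algebraMap K L (c e)) i R := by
    intro R
    have h := map_Ef (fun e => (C (algebraMap K L (c e)) : MvPolynomial (Fin (k + 1) × I m) L))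
      (aeval (R := L) fun e : Fin (k + 1) × I m => R e.1 e.2).toRingHom i fun l i => X (l, i)
    simpa using h
  have h1 := hP (Ef (fun e => C (algebraMap K L (c e))) i fun l i => X (l, i)) fun Q hQ => by
    have h2 := nat fun l i => algebraMap K L (Q l i)
    rw [h2, ← map_Ef c (algebraMap K L) i Q, hQ i, map_zero]
  rw [nat] at h1
  exact h1

/-- The closure is stable under the involutions. -/
theorem z_sg {c : Ix a → K} {P : Fin (k + 1) → I m → L} (hP : Zc c P) (j : Fin (k + 1)) :
    Zc c (sg (fun e => algebraMap K L (c e)) j P) := by
  have nat : ∀ R : Fin (k + 1) → I m → L, ∀ l i,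
      aeval (fun e : Fin (k + 1) × I m => R e.1 e.2) (sg (fun e => C (algebraMap K L (c e))) j
        (fun l i => (X (l, i) : MvPolynomial (Fin (k + 1) × I m) L)) l i) =
      sg (fun e => algebraMap K L (c e)) j R l i := by
    intro R l i
    have h := congrFun (congrFun (map_sg (fun e => (C (algebraMap K L (c e)) :
      MvPolynomial (Fin (k + 1) × I m) L))
      (aeval (R := L) fun e : Fin (k + 1) × I m => R e.1 e.2).toRingHom j fun l i => X (l, i)) l) i
    simpa using h
  have h1 := z_map hP (sg (fun e => C (algebraMap K L (c e))) j fun l i => X (l, i))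
    fun Q hQ => ⟨sg c j Q, onX_sg c j hQ, fun l i => by
      have h2 := nat (fun l i => algebraMap K L (Q l i)) l i
      rw [h2]
      exact (congrFun (congrFun (map_sg c (algebraMap K L) j Q) l) i).symm⟩
  have h2 : (fun l i => aeval (fun e : Fin (k + 1) × I m => P e.1 e.2)
      (sg (fun e => C (algebraMap K L (c e))) j
        (fun l i => (X (l, i) : MvPolynomial (Fin (k + 1) × I m) L)) l i)) =
      sg (fun e => algebraMap K L (c e)) j P := by
    funext l i
    exact nat P l i
  rw [← h2]
  exact h1

/-- A polynomial curve with infinitely many points in the closure lies in the closure. -/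
theorem z_curve [Infinite K] {c : Ix a → K} (P : Fin (k + 1) → I m → Polynomial L)
    (h : ∀ τ : K, Zc c fun l i => (P l i).eval (algebraMap K L τ)) (τ : L) :
    Zc c fun l i => (P l i).eval τ := by
  intro F hF
  have nat : ∀ τ : L, aeval (fun e : Fin (k + 1) × I m => (P e.1 e.2).eval τ) F =
      (aeval (fun e : Fin (k + 1) × I m => P e.1 e.2) F).eval τ := by
    intro τ
    have h1 : (Polynomial.aeval τ : Polynomial L →ₐ[L] L).comp
        (aeval fun e : Fin (k + 1) × I m => P e.1 e.2) =
        aeval fun e : Fin (k + 1) × I m => (P e.1 e.2).eval τ := by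
      refine MvPolynomial.algHom_ext fun e => ?_
      simp [Polynomial.coe_aeval_eq_eval]
    have h2 := DFunLike.congr_fun h1 F
    rw [← h2]
    rfl
  rw [nat]
  have h0 : aeval (fun e : Fin (k + 1) × I m => P e.1 e.2) F = 0 := by
    refine Polynomial.eq_zero_of_infinite_isRoot _ ?_
    refine Set.Infinite.mono ?_ (Set.infinite_range_of_injective
      (FaithfulSMul.algebraMap_injective K L))
    rintro _ ⟨τ, rfl⟩
    show Polynomial.IsRoot _ _
    rw [Polynomial.IsRoot, ← nat]
    exact h τ F hF
  rw [h0, Polynomial.eval_zero]

/-- The line through a rational point in a rational direction. -/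
theorem z_line [Infinite K] {c : Ix a → K} (x0 ξ0 : Fin (k + 1) → I m → K)
    (h : ∀ τ : K, OnX c fun l i => x0 l i + τ * ξ0 l i) (τ : L) :
    Zc c fun l i => algebraMap K L (x0 l i) + τ * algebraMap K L (ξ0 l i) := by
  have h1 := z_curve (L := L) (c := c)
    (fun l i => Polynomial.C (algebraMap K L (x0 l i)) +
      Polynomial.X * Polynomial.C (algebraMap K L (ξ0 l i))) (fun τ => by
        have h2 := z_of (L := L) (h τ)
        have h3 : (fun l i => algebraMap K L (x0 l i + τ * ξ0 l i)) = fun l i =>
            (Polynomial.C (algebraMap K L (x0 l i)) +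
              Polynomial.X * Polynomial.C (algebraMap K L (ξ0 l i))).eval
                (algebraMap K L τ) := by
          funext l i
          rw [map_add, map_mul, Polynomial.eval_add, Polynomial.eval_mul, Polynomial.eval_C,
            Polynomial.eval_X, Polynomial.eval_C]
        rw [← h3]
        exact h2) τ
  have h4 : (fun l i => algebraMap K L (x0 l i) + τ * algebraMap K L (ξ0 l i)) = fun l i =>
      (Polynomial.C (algebraMap K L (x0 l i)) +
        Polynomial.X * Polynomial.C (algebraMap K L (ξ0 l i))).eval τ := by
    funext l i
    rw [Polynomial.eval_add, Polynomial.eval_mul, Polynomial.eval_C, Polynomial.eval_X,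
      Polynomial.eval_C]
  rw [h4]
  exact h1

/-- Scaling by a rational number. -/
theorem z_sc_rat {c : Ix a → K} {P : Fin (k + 1) → I m → L} (hP : Zc c P)
    (lam : Fin (k + 1) → K) : Zc c (sc (fun l => algebraMap K L (lam l)) P) := by
  have h1 := z_map hP (fun l i => C (algebraMap K L (lam l)) * X (l, i))
    fun Q hQ => ⟨sc lam Q, OnX_sc hQ lam, fun l i => by simp [sc]⟩
  have h2 : (fun l i => aeval (fun e : Fin (k + 1) × I m => P e.1 e.2)
      (C (algebraMap K L (lam l)) * X (l, i))) = sc (fun l => algebraMap K L (lam l)) P := by
    funext l i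
    simp [sc]
  rw [← h2]
  exact h1

/-- Scaling of one factor. -/
theorem z_sc_one [Infinite K] {c : Ix a → K} {P : Fin (k + 1) → I m → L} (hP : Zc c P)
    (j : Fin (k + 1)) (μ : L) : Zc c (Function.update P j fun i => μ * P j i) := by
  have h1 := z_curve (L := L) (c := c)
    (Function.update (fun l i => Polynomial.C (P l i)) j
      fun i => Polynomial.X * Polynomial.C (P j i)) (fun τ => by
        have h2 := z_sc_rat hP (Function.update 1 j τ)
        have h3 : sc (fun l => algebraMap K L ((Function.update 1 j τ : Fin (k + 1) → K) l)) P =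
            fun l i => ((Function.update (fun l i => Polynomial.C (P l i)) j
              fun i => Polynomial.X * Polynomial.C (P j i) : Fin (k + 1) → I m → Polynomial L)
                l i).eval (algebraMap K L τ) := by
          funext l i
          by_cases h : l = j
          · subst h
            simp only [sc, Function.update_self, Polynomial.eval_mul, Polynomial.eval_X,
              Polynomial.eval_C]
          · simp [sc, Function.update_of_ne h]
        rw [← h3]
        exact h2) μ
  have h4 : (Function.update P j fun i => μ * P j i) =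
      fun l i => ((Function.update (fun l i => Polynomial.C (P l i)) j
        fun i => Polynomial.X * Polynomial.C (P j i) : Fin (k + 1) → I m → Polynomial L)
          l i).eval μ := by
    funext l i
    by_cases h : l = j
    · subst h
      simp only [Function.update_self, Polynomial.eval_mul, Polynomial.eval_X,
        Polynomial.eval_C]
    · simp [Function.update_of_ne h]
  rw [h4]
  exact h1

/-- Scaling of all factors. -/
theorem z_sc [Infinite K] {c : Ix a → K} {P : Fin (k + 1) → I m → L} (hP : Zc c P)
    (lam : Fin (k + 1) → L) : Zc c (sc lam P) := by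
  have h : ∀ s : Finset (Fin (k + 1)), Zc c (sc (fun l => if l ∈ s then lam l else 1) P) := by
    intro s
    induction s using Finset.induction_on with
    | empty =>
      have e : sc (fun l => if l ∈ (∅ : Finset (Fin (k + 1))) then lam l else 1) P = P := by
        funext l i
        simp [sc]
      rw [e]
      exact hP
    | insert j s hj ih =>
      have h1 := z_sc_one ih j (lam j)
      have e : sc (fun l => if l ∈ insert j s then lam l else 1) P =
          Function.update (sc (fun l => if l ∈ s then lam l else 1) P) j
            fun i => lam j * sc (fun l => if l ∈ s then lam l else 1) P j i := by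
        funext l i
        by_cases h : l = j
        · subst h
          simp [sc, hj]
        · simp [sc, h]
      rw [e]
      exact h1
  have h1 := h Finset.univ
  simpa using h1

end Pool.Agent.Helper37.HK
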