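import Pool.Agent.Helper76.HK.Val

/-!
# The example: the forms different from `a 0` have degree 1 in `y`
-/

set_option autoImplicit false

namespace Pool.Agent.Helper37.HK

open Pool.Agent.Helper64.HK Pool.Agent.Helper76.HK
open Pool.Agent.Helper28.HN (I aff)

variable {k m : ℕ} {a : Fin (k + 1) → Fin (m + 1)} {S : Type*} [CommRing S] {P : Par k m}
  {N : Num k m S}

theorem rl_two (j : Fin k) (s : Fin m) (l : Fin (m + 1)) :
    (rl P j s 2 l : S) = - (if (2 : Fin 3) = P.dd j s ∧ l = s.succ then 1 else 0) := by
  unfold rl
  rw [if_neg, zero_sub]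
  rintro ⟨h, -⟩
  exact absurd h (by decide)

theorem hg_of (typ : Option (Fin m))
    (hH : (typ = none ∧ a P.j1.succ = a 0) ∨ ∃ i, typ = some i ∧ (a P.j1.succ).succAbove i = a 0)
    (hdd : ∀ s, P.dd P.j1 s = if typ = some s then 2 else 1)
    (hdd' : ∀ j, j ≠ P.j1 → ∀ s, P.dd j s = 1)
    (hf2 : ∀ i, typ = some i → ∀ l, N.f P.j1 2 l = if l = i.succ then -1 else 0)
    (hf2' : ∀ j, j ≠ P.j1 → ∀ l, N.f j 2 l = 0) : Hg a P N := by
  intro i hi j l
  unfold gg
  have h21 : ¬ (2 : Fin 3) = 1 := by decide
  by_cases hj : j = P.j1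
  · subst hj
    rcases hH with ⟨ht, ha⟩ | ⟨i0, ht, ha⟩
    · have h1 : ∀ s, (rl P P.j1 s 2 l : S) = 0 := by
        intro s
        have e : P.dd P.j1 s = 1 := by
          rw [hdd, ht]
          simp
        rw [rl_two, e, if_neg (fun h => h21 h.1), neg_zero]
      simp only [h1, ite_self, Finset.sum_const_zero, zero_add]
      rw [if_neg (fun h => hi (h.trans ha))]
    · have h1 : ∀ s, (rl P P.j1 s 2 l : S) = if s = i0 then - (if l = i0.succ then 1 else 0) else 0 := by
        intro s
        by_cases hs : s = i0
        · subst hs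
          have e : P.dd P.j1 s = 2 := by
            rw [hdd, ht, if_pos rfl]
          rw [rl_two, e, if_pos rfl]
          simp
        · have e : P.dd P.j1 s = 1 := by
            rw [hdd, ht, if_neg]
            intro h
            exact hs (Option.some.inj h).symm
          rw [rl_two, e, if_neg (fun h => h21 h.1), neg_zero, if_neg hs]
      have h2 : (∑ s : Fin m, if i = (a P.j1.succ).succAbove s then (rl P P.j1 s 2 l : S) else 0) =
          0 := by
        refine Finset.sum_eq_zero fun s _ => ?_
        split_ifs with h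
        · rw [h1, if_neg]
          intro hs
          rw [hs, ha] at h
          exact hi h
        · rfl
      have h3 : (∑ s : Fin m, sn a ((a P.j1.succ).succAbove s) * (rl P P.j1 s 2 l : S)) =
          - (if l = i0.succ then 1 else 0) := by
        simp only [h1]
        rw [Finset.sum_eq_single i0]
        · rw [if_pos rfl, ha, sn, if_pos rfl, one_mul]
        · intro b _ hb
          rw [if_neg hb, mul_zero]
        · intro h
          exact absurd (Finset.mem_univ _) h
      rw [h2, h3, zero_add, hf2 i0 ht]
      split_ifs <;> ring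
  · have h1 : ∀ s, (rl P j s 2 l : S) = 0 := by
      intro s
      rw [rl_two, hdd' j hj, if_neg (fun h => h21 h.1), neg_zero]
    simp only [h1, ite_self, Finset.sum_const_zero, zero_add, mul_zero, hf2' j hj, sub_zero]

end Pool.Agent.Helper37.HK
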