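import Pool.Agent.Helper64.HK.Defs

/-!
# Complete intersections in `(P^(m+1))^(k+1)`: homogeneity, all factors at once

`sc lam X` is the point `X` with the factor `l` multiplied by `lam l`.
-/

set_option autoImplicit false

namespace Pool.Agent.Helper37.HK

open Pool.Agent.Helper64.HK
open Pool.Agent.Helper28.HN (I aff)

section smul

variable {k m : ℕ} {a : Fin (k + 1) → Fin (m + 1)} {S : Type*} [CommRing S]

/-- The point `X` with the factor `l` multiplied by `lam l`. -/
def sc (lam : Fin (k + 1) → S) (X : Fin (k + 1) → I m → S) : Fin (k + 1) → I m → S :=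
  fun l i => lam l * X l i

/-- The product over the second slots. -/
def w2 (a : Fin (k + 1) → Fin (m + 1)) (i : Fin (m + 1)) (lam : Fin (k + 1) → S) : S :=
  ∏ l : {l // a l = i}, lam l.1

/-- The weight of the form `i`. -/
def wt (a : Fin (k + 1) → Fin (m + 1)) (i : Fin (m + 1)) (lam : Fin (k + 1) → S) : S :=
  (∏ l, lam l) * w2 a i lam

/-- The weight of the determinant of the line in the factor `j`. -/
def dt (a : Fin (k + 1) → Fin (m + 1)) (j : Fin (k + 1)) (lam : Fin (k + 1) → S) : S :=
  ∏ r : Fin m, wt a ((a j).succAbove r) (Function.update lam j 1)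

/-- The weight of the quadratic coefficient of the line in the factor `j`. -/
def kt (a : Fin (k + 1) → Fin (m + 1)) (j : Fin (k + 1)) (lam : Fin (k + 1) → S) : S :=
  wt a (a j) (Function.update lam j 1) * (dt a j lam * dt a j lam)

theorem prod_update (lam : Fin (k + 1) → S) (j : Fin (k + 1)) (b : S) :
    ∏ l, Function.update lam j b l = b * ∏ l, Function.update lam j 1 l := by
  rw [Finset.prod_update_of_mem (Finset.mem_univ j), Finset.prod_update_of_mem (Finset.mem_univ j),
    one_mul]

theorem w2_update_ne {i : Fin (m + 1)} {j : Fin (k + 1)} (h : a j ≠ i) (lam : Fin (k + 1) → S)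
    (b : S) : w2 a i (Function.update lam j b) = w2 a i lam := by
  unfold w2
  refine Finset.prod_congr rfl fun l _ => ?_
  have : l.1 ≠ j := by
    intro e
    exact h (e ▸ l.2)
  rw [Function.update_of_ne this]

theorem w2_update_eq {i : Fin (m + 1)} {j : Fin (k + 1)} (h : a j = i) (lam : Fin (k + 1) → S)
    (b : S) : w2 a i (Function.update lam j b) = b * w2 a i (Function.update lam j 1) := by
  have e : ∀ b, (fun l : {l // a l = i} => Function.update lam j b l.1) =
      Function.update (fun l : {l // a l = i} => lam l.1) ⟨j, h⟩ b := by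
    intro b
    funext l
    by_cases hl : l = ⟨j, h⟩
    · subst hl
      rw [Function.update_self, Function.update_self]
    · rw [Function.update_of_ne hl, Function.update_of_ne]
      intro e
      exact hl (Subtype.ext e)
  unfold w2
  rw [e b, e 1, Finset.prod_update_of_mem (Finset.mem_univ _),
    Finset.prod_update_of_mem (Finset.mem_univ _), one_mul]

theorem wt_update_ne {i : Fin (m + 1)} {j : Fin (k + 1)} (h : a j ≠ i) (lam : Fin (k + 1) → S)
    (b : S) : wt a i (Function.update lam j b) = b * wt a i (Function.update lam j 1) := by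
  rw [wt, wt, w2_update_ne h, w2_update_ne h, prod_update, mul_assoc]

theorem wt_update_eq {i : Fin (m + 1)} {j : Fin (k + 1)} (h : a j = i) (lam : Fin (k + 1) → S)
    (b : S) : wt a i (Function.update lam j b) = b * b * wt a i (Function.update lam j 1) := by
  rw [wt, wt, w2_update_eq h, prod_update]
  ring

theorem wt_one (i : Fin (m + 1)) : wt a i (1 : Fin (k + 1) → S) = 1 := by
  simp [wt, w2]

/-- The degree of the form `i` in the factor `j`. -/
theorem wt_single (i : Fin (m + 1)) (j : Fin (k + 1)) (b : S) :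
    wt a i (Function.update (1 : Fin (k + 1) → S) j b) = if a j = i then b ^ 2 else b := by
  have h1 : Function.update (1 : Fin (k + 1) → S) j 1 = 1 := by
    rw [Function.update_eq_self_iff]
    rfl
  split_ifs with h
  · rw [wt_update_eq h, h1, wt_one]
    ring
  · rw [wt_update_ne h, h1, wt_one]
    ring

theorem update_sc (lam : Fin (k + 1) → S) (X : Fin (k + 1) → I m → S) (j : Fin (k + 1))
    (b : S) (v : I m → S) : Function.update (sc lam X) j (fun i => b * v i) =
      sc (Function.update lam j b) (Function.update X j v) := by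
  funext l i
  by_cases h : l = j
  · subst h
    simp [sc]
  · simp [sc, Function.update_of_ne h]

theorem update_sc_one (lam : Fin (k + 1) → S) (X : Fin (k + 1) → I m → S) (j : Fin (k + 1))
    (v : I m → S) : Function.update (sc lam X) j v =
      sc (Function.update lam j 1) (Function.update X j v) := by
  have := update_sc lam X j 1 v
  simpa using this

theorem Mf_sc (c : Ix a → S) (i : Fin (m + 1)) (lam mu : Fin (k + 1) → S)
    (U V : Fin (k + 1) → I m → S) :
    Mf c i (sc lam U) (sc mu V) = (∏ l, lam l) * w2 a i mu * Mf c i U V := by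
  unfold Mf w2
  rw [Finset.mul_sum]
  refine Finset.sum_congr rfl fun p _ => ?_
  rw [Finset.mul_sum]
  refine Finset.sum_congr rfl fun q _ => ?_
  simp only [sc, Finset.prod_mul_distrib]
  ring

theorem Ef_sc (c : Ix a → S) (i : Fin (m + 1)) (lam : Fin (k + 1) → S)
    (X : Fin (k + 1) → I m → S) : Ef c i (sc lam X) = wt a i lam * Ef c i X :=
  Mf_sc c i lam lam X X

theorem OnX_sc {c : Ix a → S} {X : Fin (k + 1) → I m → S} (h : OnX c X)
    (lam : Fin (k + 1) → S) : OnX c (sc lam X) := by
  intro i
  rw [Ef_sc, h i, mul_zero]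

theorem Pf_sc (c : Ix a → S) (j : Fin (k + 1)) (lam : Fin (k + 1) → S)
    (X : Fin (k + 1) → I m → S) (b b' : S) (v w : I m → S) :
    Pf c j (sc lam X) (fun i => b * v i) (fun i => b' * w i) =
      wt a (a j) (Function.update lam j 1) * (b * b') * Pf c j X v w := by
  unfold Pf
  rw [update_sc, update_sc, Mf_sc, Mf_sc, prod_update lam j b, prod_update lam j b',
    w2_update_eq rfl lam b, w2_update_eq rfl lam b', wt]
  ring

theorem rf_sc (c : Ix a → S) (j : Fin (k + 1)) (lam : Fin (k + 1) → S)
    (X : Fin (k + 1) → I m → S) (r : Fin m) (v : I m → S) :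
    rf c j (sc lam X) r v = wt a ((a j).succAbove r) (Function.update lam j 1) * rf c j X r v := by
  unfold rf
  rw [update_sc_one, Ef_sc]

theorem adj_diag (e : Fin m → S) (M : Matrix (Fin m) (Fin m) S) (v : Fin m → S) :
    (Matrix.diagonal e * M).adjugate.mulVec (fun r => e r * v r) =
      (∏ r, e r) • M.adjugate.mulVec v := by
  have h1 : (fun r => e r * v r) = (Matrix.diagonal e).mulVec v := by
    funext r
    rw [Matrix.mulVec_diagonal]
  rw [h1, Matrix.adjugate_mul_distrib, Matrix.mulVec_mulVec, Matrix.mul_assoc,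
    Matrix.adjugate_mul, Matrix.det_diagonal, Matrix.mul_smul, Matrix.mul_one, Matrix.smul_mulVec]

theorem Mx_sc (c : Ix a → S) (lam : Fin (k + 1) → S) (X : Fin (k + 1) → I m → S) :
    Mx c (sc lam X) =
      Matrix.diagonal (fun r => wt a ((a 0).succAbove r) (Function.update lam 0 1)) * Mx c X := by
  ext r b
  rw [Matrix.diagonal_mul]
  exact rf_sc c 0 lam X r _

theorem Nx_sc (c : Ix a → S) (j : Fin (k + 1)) (lam : Fin (k + 1) → S)
    (X : Fin (k + 1) → I m → S) :
    Nx c j (sc lam X) =
      Matrix.diagonal (fun r => wt a ((a j).succAbove r) (Function.update lam j 1)) *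
        Nx c j X := by
  ext r b
  rw [Matrix.diagonal_mul]
  exact rf_sc c j lam X r _

theorem dMx_sc (c : Ix a → S) (lam : Fin (k + 1) → S) (X : Fin (k + 1) → I m → S) :
    (Mx c (sc lam X)).det = dt a 0 lam * (Mx c X).det := by
  rw [Mx_sc, Matrix.det_mul, Matrix.det_diagonal, dt]

theorem dNx_sc (c : Ix a → S) (j : Fin (k + 1)) (lam : Fin (k + 1) → S)
    (X : Fin (k + 1) → I m → S) :
    (Nx c j (sc lam X)).det = dt a j lam * (Nx c j X).det := by
  rw [Nx_sc, Matrix.det_mul, Matrix.det_diagonal, dt]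

theorem Y0_sc (c : Ix a → S) (lam : Fin (k + 1) → S) (X : Fin (k + 1) → I m → S) :
    Y0 c (sc lam X) = fun i => dt a 0 lam * Y0 c X i := by
  funext i
  refine Fin.cases ?_ (fun i => Fin.cases ?_ (fun j => ?_) i) i
  · exact dMx_sc c lam X
  · exact (mul_zero _).symm
  · show -(((Mx c (sc lam X)).adjugate.mulVec
        fun r => rf c 0 (sc lam X) r (Pi.single 0 1)) j) =
      dt a 0 lam * -(((Mx c X).adjugate.mulVec fun r => rf c 0 X r (Pi.single 0 1)) j)
    simp only [rf_sc]
    rw [Mx_sc, adj_diag, Pi.smul_apply, smul_eq_mul, mul_neg, dt]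

theorem Y1_sc (c : Ix a → S) (lam : Fin (k + 1) → S) (X : Fin (k + 1) → I m → S) :
    Y1 c (sc lam X) = fun i => dt a 0 lam * Y1 c X i := by
  funext i
  refine Fin.cases ?_ (fun i => Fin.cases ?_ (fun j => ?_) i) i
  · exact (mul_zero _).symm
  · exact dMx_sc c lam X
  · show -(((Mx c (sc lam X)).adjugate.mulVec
        fun r => rf c 0 (sc lam X) r (Pi.single 1 1)) j) =
      dt a 0 lam * -(((Mx c X).adjugate.mulVec fun r => rf c 0 X r (Pi.single 1 1)) j)
    simp only [rf_sc]
    rw [Mx_sc, adj_diag, Pi.smul_apply, smul_eq_mul, mul_neg, dt]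

theorem vh_sc (c : Ix a → S) (j : Fin (k + 1)) (lam : Fin (k + 1) → S)
    (X : Fin (k + 1) → I m → S) :
    vh c j (sc lam X) = fun i => dt a j lam * vh c j X i := by
  funext i
  refine Fin.lastCases ?_ (fun i => ?_) i
  · simp only [vh, Fin.snoc_last]
    exact dNx_sc c j lam X
  · simp only [vh, Fin.snoc_castSucc, Pi.neg_apply]
    simp only [rf_sc]
    rw [Nx_sc, adj_diag, Pi.smul_apply, smul_eq_mul, mul_neg, dt]

theorem xh_sc (c : Ix a → S) (j : Fin (k + 1)) (lam : Fin (k + 1) → S)
    (X : Fin (k + 1) → I m → S) :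
    xh c j (sc lam X) = fun i => dt a j lam * xh c j X i := by
  funext i
  refine Fin.cases ?_ (fun i => ?_) i
  · exact (mul_zero _).symm
  · exact congrFun (vh_sc c j lam X) i

theorem yh_sc (c : Ix a → S) (lam : Fin (k + 1) → S) (X : Fin (k + 1) → I m → S) (z : S) :
    yh c (sc lam X) z = fun i => dt a 0 lam * yh c X z i := by
  funext i
  show Y0 c (sc lam X) i + z * Y1 c (sc lam X) i = dt a 0 lam * (Y0 c X i + z * Y1 c X i)
  rw [Y0_sc, Y1_sc]
  ring

theorem Ah_sc (c : Ix a → S) (lam : Fin (k + 1) → S) (X : Fin (k + 1) → I m → S) :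
    Ah c (sc lam X) = kt a 0 lam * Ah c X := by
  rw [Ah, Y1_sc, Pf_sc, Ah, kt]

theorem Bh_sc (c : Ix a → S) (lam : Fin (k + 1) → S) (X : Fin (k + 1) → I m → S) :
    Bh c (sc lam X) = kt a 0 lam * Bh c X := by
  rw [Bh, Y0_sc, Y1_sc, Pf_sc, Bh, kt]

theorem Ch_sc (c : Ix a → S) (lam : Fin (k + 1) → S) (X : Fin (k + 1) → I m → S) :
    Ch c (sc lam X) = kt a 0 lam * Ch c X := by
  rw [Ch, Y0_sc, Pf_sc, Ch, kt]

theorem Fh_sc (c : Ix a → S) (lam : Fin (k + 1) → S) (X : Fin (k + 1) → I m → S) (z : S) :
    Fh c (sc lam X) z = kt a 0 lam * Fh c X z := by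
  rw [Fh, yh_sc, Pf_sc, Fh, kt]

/-- the quadratic coefficient on the line in the factor `j` -/
theorem Kx_sc (c : Ix a → S) (j : Fin (k + 1)) (lam : Fin (k + 1) → S)
    (X : Fin (k + 1) → I m → S) :
    Pf c j (sc lam X) (xh c j (sc lam X)) (xh c j (sc lam X)) =
      kt a j lam * Pf c j X (xh c j X) (xh c j X) := by
  rw [xh_sc, Pf_sc, kt]

theorem nx_sc (c : Ix a → S) (j : Fin (k + 1)) (lam : Fin (k + 1) → S)
    (X : Fin (k + 1) → I m → S) :
    nx c j (sc lam X) = fun i => kt a j lam * lam j * nx c j X i := by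
  funext i
  have h : Pf c j (sc lam X) (sc lam X j) (xh c j (sc lam X)) =
      wt a (a j) (Function.update lam j 1) * (lam j * dt a j lam) * Pf c j X (X j) (xh c j X) := by
    rw [xh_sc]
    exact Pf_sc c j lam X (lam j) (dt a j lam) (X j) (xh c j X)
  show Pf c j (sc lam X) (xh c j (sc lam X)) (xh c j (sc lam X)) * (lam j * X j i) -
      2 * Pf c j (sc lam X) (sc lam X j) (xh c j (sc lam X)) * xh c j (sc lam X) i =
    kt a j lam * lam j * (Pf c j X (xh c j X) (xh c j X) * X j i -
      2 * Pf c j X (X j) (xh c j X) * xh c j X i)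
  rw [Kx_sc, h, xh_sc, kt]
  ring

theorem ny_sc (c : Ix a → S) (lam : Fin (k + 1) → S) (X : Fin (k + 1) → I m → S) :
    ny c (sc lam X) = fun i => kt a 0 lam * lam 0 * ny c X i := by
  funext i
  have h : Pf c 0 (sc lam X) (sc lam X 0) (Y1 c (sc lam X)) =
      wt a (a 0) (Function.update lam 0 1) * (lam 0 * dt a 0 lam) * Pf c 0 X (X 0) (Y1 c X) := by
    rw [Y1_sc]
    exact Pf_sc c 0 lam X (lam 0) (dt a 0 lam) (X 0) (Y1 c X)
  show Ah c (sc lam X) * (lam 0 * X 0 i) -
      2 * Pf c 0 (sc lam X) (sc lam X 0) (Y1 c (sc lam X)) * Y1 c (sc lam X) i =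
    kt a 0 lam * lam 0 * (Ah c X * X 0 i - 2 * Pf c 0 X (X 0) (Y1 c X) * Y1 c X i)
  rw [Ah_sc, h, Y1_sc, kt]
  ring

/-- The involution of a rescaled point is a rescaled point. -/
theorem sg_sc (c : Ix a → S) (j : Fin (k + 1)) (lam : Fin (k + 1) → S)
    (X : Fin (k + 1) → I m → S) :
    sg c j (sc lam X) = sc (Function.update lam j (kt a j lam * lam j)) (sg c j X) := by
  unfold sg
  rw [← update_sc]
  by_cases h : j = 0
  · subst h
    rw [if_pos rfl, if_pos rfl, ny_sc]
  · rw [if_neg h, if_neg h, nx_sc]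

end smul

section single

variable {k m : ℕ} {a : Fin (k + 1) → Fin (m + 1)} {S : Type*} [CommRing S]

theorem update_single_self (j : Fin (k + 1)) (b : S) :
    Function.update (Function.update (1 : Fin (k + 1) → S) j b) j 1 = 1 := by
  rw [Function.update_idem, Function.update_eq_self_iff]
  rfl

theorem update_single_ne {j l : Fin (k + 1)} (h : l ≠ j) (b : S) :
    Function.update (Function.update (1 : Fin (k + 1) → S) l b) j 1 =
      Function.update (1 : Fin (k + 1) → S) l b := by
  rw [Function.update_eq_self_iff, Function.update_of_ne (Ne.symm h)]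
  rfl

theorem dt_single_self (j : Fin (k + 1)) (b : S) : dt a j (Function.update (1 : Fin (k + 1) → S) j b) = 1 := by
  unfold dt
  rw [update_single_self]
  simp [wt_one]

theorem kt_single_self (j : Fin (k + 1)) (b : S) : kt a j (Function.update (1 : Fin (k + 1) → S) j b) = 1 := by
  unfold kt
  rw [dt_single_self, update_single_self, wt_one]
  ring

/-- The degree of the determinant of the line in the factor `j` in another factor `l`. -/
theorem dt_single {j l : Fin (k + 1)} (h : l ≠ j) (b : S) :
    dt a j (Function.update (1 : Fin (k + 1) → S) l b) = if a l = a j then b ^ m else b ^ (m + 1) := by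
  unfold dt
  simp only [update_single_ne h, wt_single]
  split_ifs with e
  · have : ∀ r : Fin m, (if a l = (a j).succAbove r then b ^ 2 else b) = b := by
      intro r
      rw [if_neg]
      rw [e]
      exact Fin.ne_succAbove _ _
    simp only [this, Finset.prod_const, Finset.card_univ, Fintype.card_fin]
  · obtain ⟨r0, hr0⟩ := Fin.exists_succAbove_eq e
    have : ∀ r : Fin m, (if a l = (a j).succAbove r then b ^ 2 else b) =
        b * if r = r0 then b else 1 := by
      intro r
      rw [← hr0]
      by_cases hr : r = r0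
      · subst hr
        rw [if_pos rfl, if_pos rfl]
        ring
      · rw [if_neg, if_neg hr, mul_one]
        intro e'
        exact hr (Fin.succAbove_right_injective e').symm
    simp only [this, Finset.prod_mul_distrib, Finset.prod_const, Finset.card_univ,
      Fintype.card_fin, Finset.prod_ite_eq', Finset.mem_univ, if_true]
    ring

/-- The degree of the quadratic form on the line in the factor `j` in another factor `l`. -/
theorem kt_single {j l : Fin (k + 1)} (h : l ≠ j) (b : S) :
    kt a j (Function.update (1 : Fin (k + 1) → S) l b) = if a l = a j then b ^ (2 * m + 2) else b ^ (2 * m + 3) := by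
  unfold kt
  rw [dt_single h, update_single_ne h, wt_single]
  split_ifs with e
  · ring
  · ring

theorem sc_single (l : Fin (k + 1)) (b : S) (X : Fin (k + 1) → I m → S) :
    sc (Function.update (1 : Fin (k + 1) → S) l b) X = Function.update X l fun i => b * X l i := by
  funext l' i
  by_cases h : l' = l
  · subst h
    simp [sc]
  · simp [sc, Function.update_of_ne h]

end single

section ne

variable {k m : ℕ} {a : Fin (k + 1) → Fin (m + 1)} {S : Type*} [CommRing S] [IsDomain S]

theorem wt_ne_zero (i : Fin (m + 1)) {lam : Fin (k + 1) → S} (h : ∀ l, lam l ≠ 0) :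
    wt a i lam ≠ 0 :=
  mul_ne_zero (Finset.prod_ne_zero_iff.2 fun l _ => h l)
    (Finset.prod_ne_zero_iff.2 fun l _ => h l.1)

omit [IsDomain S] in
theorem upd_ne_zero {lam : Fin (k + 1) → S} (h : ∀ l, lam l ≠ 0) (j : Fin (k + 1)) {b : S}
    (hb : b ≠ 0) (l : Fin (k + 1)) : Function.update lam j b l ≠ 0 := by
  by_cases e : l = j
  · subst e
    rw [Function.update_self]
    exact hb
  · rw [Function.update_of_ne e]
    exact h l

theorem dt_ne_zero (j : Fin (k + 1)) {lam : Fin (k + 1) → S} (h : ∀ l, lam l ≠ 0) :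
    dt a j lam ≠ 0 :=
  Finset.prod_ne_zero_iff.2 fun _ _ => wt_ne_zero _ (upd_ne_zero h j one_ne_zero)

theorem kt_ne_zero (j : Fin (k + 1)) {lam : Fin (k + 1) → S} (h : ∀ l, lam l ≠ 0) :
    kt a j lam ≠ 0 :=
  mul_ne_zero (wt_ne_zero _ (upd_ne_zero h j one_ne_zero))
    (mul_ne_zero (dt_ne_zero j h) (dt_ne_zero j h))

end ne

end Pool.Agent.Helper37.HK
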