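import Pool.Agent.Helper37.HK.Cone

/-!
# The closure of the rational points: moves in the chart
-/

set_option autoImplicit false

namespace Pool.Agent.Helper37.HK

open Pool.Agent.Helper64.HK
open Pool.Agent.Helper28.HN (I aff)
open MvPolynomial Function

variable {k m : ℕ} {a : Fin (k + 1) → Fin (m + 1)} {K : Type*} [Field K]
  {L : Type*} [Field L] [Algebra K L]

/-- The coefficients over `L`. -/
def cL (L : Type*) [Field L] [Algebra K L] (c : Ix a → K) : Ix a → L :=
  fun e => algebraMap K L (c e)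

theorem z_on' {c : Ix a → K} {P : Fin (k + 1) → I m → L} (hP : Zc c P) : OnX (cL L c) P :=
  z_on hP

/-- The point over `X` lies on the quadric: `Fh = 0`. -/
theorem z_Fh {c : Ix a → K} {X : Fin (k + 1) → I m → L} {z : L} (h : Zc c (Xz (cL L c) X z)) :
    Fh (cL L c) X z = 0 := by
  have h1 := z_on' h (a 0)
  rw [Fh, Pf_self]
  unfold Xz at h1
  rw [h1, mul_zero]

/-- The factor `0` is determined by `X` and `z` up to scaling. -/
theorem z_Xz [Infinite K] {c : Ix a → K} {X : Fin (k + 1) → I m → L} {z : L} (h : Zc c X)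
    (h0 : X 0 0 ≠ 0) (h1 : X 0 1 = z * X 0 0) : Zc c (Xz (cL L c) X z) := by
  have h2 := z_sc_one h 0 ((Mx (cL L c) X).det / X 0 0)
  have h3 : (fun i => (Mx (cL L c) X).det / X 0 0 * X 0 i) = yh (cL L c) X z := by
    funext i
    have h4 := det_mul_eq (cL L c) X z (X 0) (fun r => by
      rw [rf_self]
      exact z_on' h _) h1 i
    rw [div_mul_eq_mul_div, h4, mul_div_assoc, mul_comm, div_mul_cancel₀ _ h0]
  rw [h3] at h2
  exact h2

/-- The involution in the factor `j`. -/
theorem z_nx [Infinite K] {c : Ix a → K} {X : Fin (k + 1) → I m → L} {z t : L} (j : Fin k)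
    (h : Zc c (Xz (cL L c) X z)) (hD : (Mx (cL L c) X).det ≠ 0)
    (hk : kah (cL L c) j.succ X z ≠ 0)
    (ht : t * kah (cL L c) j.succ X z = 2 * psh (cL L c) j.succ X z) :
    Zc c (Xz (cL L c) (update X j.succ fun i => X j.succ i -
      t * xh (cL L c) j.succ (Xz (cL L c) X z) i) z) := by
  have h1 := z_sg h j.succ
  change Zc c (sg (cL L c) j.succ (Xz (cL L c) X z)) at h1
  have h2 := z_sc_one h1 j.succ (kah (cL L c) j.succ X z)⁻¹
  rw [sg_succ, update_idem, update_self] at h2
  have h3 : (fun i => (kah (cL L c) j.succ X z)⁻¹ * nx (cL L c) j.succ (Xz (cL L c) X z) i) =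
      fun i => X j.succ i - t * xh (cL L c) j.succ (Xz (cL L c) X z) i := by
    funext i
    rw [nx_yh, ← ht]
    field_simp
  rw [h3] at h2
  have hne : (0 : Fin (k + 1)) ≠ j.succ := (Fin.succ_ne_zero j).symm
  have h4 := z_Xz (z := z) h2 (by
    rw [update_of_ne hne]
    unfold Xz
    rw [update_self, yh_zero]
    exact hD) (by
    rw [update_of_ne hne]
    unfold Xz
    rw [update_self, yh_zero, yh_one])
  have h5 : ∀ v, Xz (cL L c) (update (Xz (cL L c) X z) j.succ v) z =
      Xz (cL L c) (update X j.succ v) z := by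
    intro v
    have : update (Xz (cL L c) X z) j.succ v = update (update X j.succ v) 0 (yh (cL L c) X z) := by
      unfold Xz
      rw [update_comm hne]
    rw [this, Xz_upd]
  rw [h5] at h4
  exact h4

/-- The involution in the factor `0`. -/
theorem z_ny [Infinite K] {c : Ix a → K} {X : Fin (k + 1) → I m → L} {z w : L}
    (h : Zc c (Xz (cL L c) X z)) (hA : Ah (cL L c) X ≠ 0)
    (hw : Ah (cL L c) X * w = - (2 * Bh (cL L c) X) - Ah (cL L c) X * z) :
    Zc c (Xz (cL L c) X w) := by
  have h1 := z_sg h 0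
  change Zc c (sg (cL L c) 0 (Xz (cL L c) X z)) at h1
  have h2 := z_sc_one h1 0 (Ah (cL L c) X)⁻¹
  rw [sg_zero, update_idem, update_self] at h2
  have h3 : (fun i => (Ah (cL L c) X)⁻¹ * ny (cL L c) (Xz (cL L c) X z) i) =
      yh (cL L c) X w := by
    funext i
    rw [ny_yh (cL L c) X z w hw, ← mul_assoc, inv_mul_cancel₀ hA, one_mul]
  rw [h3] at h2
  have h4 : update (Xz (cL L c) X z) 0 (yh (cL L c) X w) = Xz (cL L c) X w := by
    unfold Xz
    rw [update_idem]
  rw [h4] at h2
  exact h2

/-- The other point over `X` when the first one has `z`: from the factorisation of `Fh`. -/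
theorem z_ny' [Infinite K] {c : Ix a → K} {X : Fin (k + 1) → I m → L} {z w : L}
    (h : Zc c (Xz (cL L c) X z)) (hA : Ah (cL L c) X ≠ 0)
    (hw : ∀ v : L, Fh (cL L c) X v = Ah (cL L c) X * (v - z) * (v - w)) :
    Zc c (Xz (cL L c) X w) := by
  refine z_ny h hA ?_
  have h0 := hw 0
  have h1 := hw 1
  rw [Fh_eq] at h0 h1
  linear_combination h1 - h0

theorem ct_zero (u : Fin k × Fin (m + 1) → L) : (ct u : Fin (k + 1) → I m → L) 0 = 0 := by
  simp [ct]

theorem ct_succ (u : Fin k × Fin (m + 1) → L) (j : Fin k) :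
    (ct u : Fin (k + 1) → I m → L) j.succ = aff fun i => u (j, i) := by
  simp [ct]

/-- The chart after a move in the factor `j`. -/
theorem ct_sub (u : Fin k × Fin (m + 1) → L) (j : Fin k) (v : Fin (m + 1) → L) (t : L) :
    (ct (fun e => u e - t * if e.1 = j then v e.2 else 0) : Fin (k + 1) → I m → L) =
      update (ct u) j.succ fun i => (ct u : Fin (k + 1) → I m → L) j.succ i -
        t * (Fin.cons 0 v : I m → L) i := by
  funext l
  refine Fin.cases ?_ (fun l => ?_) l
  · rw [update_of_ne (Fin.succ_ne_zero j).symm, ct_zero, ct_zero]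
  · by_cases h : l = j
    · subst h
      rw [update_self, ct_succ, ct_succ]
      funext i
      refine Fin.cases ?_ (fun i => ?_) i
      · simp [aff]
      · simp [aff]
    · rw [update_of_ne (fun e => h (Fin.succ_injective _ e)), ct_succ, ct_succ]
      funext i
      refine Fin.cases ?_ (fun i => ?_) i
      · simp [aff]
      · simp [aff, h]

/-- The move in the factor `j` in the chart. -/
theorem z_ct_nx [Infinite K] {c : Ix a → K} {u : Fin k × Fin (m + 1) → L} {z t : L} (j : Fin k)
    (h : Zc c (Xz (cL L c) (ct u) z)) (hD : (Mx (cL L c) (ct u)).det ≠ 0)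
    (hk : kah (cL L c) j.succ (ct u) z ≠ 0)
    (ht : t * kah (cL L c) j.succ (ct u) z = 2 * psh (cL L c) j.succ (ct u) z) :
    Zc c (Xz (cL L c) (ct fun e => u e - t * if e.1 = j then
      vh (cL L c) j.succ (Xz (cL L c) (ct u) z) e.2 else 0) z) := by
  rw [ct_sub]
  exact z_nx j h hD hk ht

/-- Passing to the chart: all factors are scaled so that the first coordinates of the factors
`1, .., k` are `1`. -/
theorem z_chart [Infinite K] {c : Ix a → K} {P : Fin (k + 1) → I m → L} {z : L} (h : Zc c P)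
    (hP : ∀ j : Fin k, P j.succ 0 ≠ 0) (h0 : P 0 0 ≠ 0) (h1 : P 0 1 = z * P 0 0) :
    Zc c (Xz (cL L c) (ct fun e => P e.1.succ e.2.succ / P e.1.succ 0) z) := by
  have h2 := z_sc h (Fin.cons 1 fun j => (P j.succ 0)⁻¹)
  have h3 := z_Xz (z := z) h2 (by simpa [sc] using h0) (by simpa [sc] using h1)
  have h4 : sc (Fin.cons 1 fun j => (P j.succ 0)⁻¹ : Fin (k + 1) → L) P =
      update (ct fun e => P e.1.succ e.2.succ / P e.1.succ 0) 0 (P 0) := by
    funext l
    refine Fin.cases ?_ (fun l => ?_) l
    · rw [update_self]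
      funext i
      simp [sc]
    · rw [update_of_ne (Fin.succ_ne_zero l), ct_succ]
      funext i
      refine Fin.cases ?_ (fun i => ?_) i
      · simp only [sc, Fin.cons_succ, aff, Fin.cons_zero]
        exact inv_mul_cancel₀ (hP l)
      · simp only [sc, Fin.cons_succ, aff]
        rw [div_eq_mul_inv, mul_comm]
  rw [h4, Xz_upd] at h3
  exact h3

end Pool.Agent.Helper37.HK
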