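import Pool.Agent.Helper24.HK.Cfg
import Pool.Agent.Helper37.HK.Cone

/-!
# The pieces ZCL of `Helper24/HK/Pieces`
-/

set_option autoImplicit false

namespace Pool.Agent.Helper37.HK.P

open MvPolynomial Pool.Agent.Helper64.HK Pool.Agent.Helper24.HK
open Pool.Agent.Helper28.HN (I aff)
open Function

variable {k m : ℕ} {a : Fin (k + 1) → Fin (m + 1)} {E : Type*} [Field E] (K : Subfield E)
  (c : Ix a → E)

theorem z_cone {P : Fin (k + 1) → I m → E} (h : P ∈ Cone (K : Set E) c) :
    P ∈ Helper24.HK.Zc (K : Set E) c := fun _ hF => hF P h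

theorem eval_Ef (i : Fin (m + 1)) (R : Fin (k + 1) → I m → E) :
    eval (fun e : Fin (k + 1) × I m => R e.1 e.2) (Ef (fun e => C (c e)) i
      fun l i => (X (l, i) : MvPolynomial (Fin (k + 1) × I m) E)) = Ef c i R := by
  have h := map_Ef (fun e => (C (c e) : MvPolynomial (Fin (k + 1) × I m) E))
    (eval fun e : Fin (k + 1) × I m => R e.1 e.2) i fun l i => X (l, i)
  simpa using h

theorem eval_sg (j : Fin (k + 1)) (R : Fin (k + 1) → I m → E) (l : Fin (k + 1)) (i : I m) :
    eval (fun e : Fin (k + 1) × I m => R e.1 e.2) (sg (fun e => C (c e)) j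
      (fun l i => (X (l, i) : MvPolynomial (Fin (k + 1) × I m) E)) l i) = sg c j R l i := by
  have h := congrFun (congrFun (map_sg (fun e => (C (c e) :
    MvPolynomial (Fin (k + 1) × I m) E))
    (eval fun e : Fin (k + 1) × I m => R e.1 e.2) j fun l i => X (l, i)) l) i
  simpa using h

theorem z_on {P : Fin (k + 1) → I m → E} (h : P ∈ Helper24.HK.Zc (K : Set E) c) : OnX c P := by
  intro i
  rw [← eval_Ef]
  refine h _ fun Q hQ => ?_
  rw [eval_Ef]
  exact hQ.2 i

/-- The closure is stable under the polynomial maps which map the cone to itself. -/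
theorem z_map {P : Fin (k + 1) → I m → E} (hP : P ∈ Helper24.HK.Zc (K : Set E) c)
    (φ : Fin (k + 1) → I m → MvPolynomial (Fin (k + 1) × I m) E)
    (hφ : ∀ Q ∈ Cone (K : Set E) c,
      (fun l i => eval (fun e : Fin (k + 1) × I m => Q e.1 e.2) (φ l i)) ∈ Cone (K : Set E) c) :
    (fun l i => eval (fun e : Fin (k + 1) × I m => P e.1 e.2) (φ l i)) ∈
      Helper24.HK.Zc (K : Set E) c := by
  have hb : ∀ (R : Fin (k + 1) → I m → E) (F : MvPolynomial (Fin (k + 1) × I m) E),
      eval (fun e => R e.1 e.2) (bind₁ (fun e => φ e.1 e.2) F) =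
      eval (fun e : Fin (k + 1) × I m => eval (fun e => R e.1 e.2) (φ e.1 e.2)) F := by
    intro R F
    rw [← coe_aeval_eq_eval, ← coe_aeval_eq_eval]
    exact aeval_bind₁ _ _ _
  intro F hF
  have h1 := hP (bind₁ (fun e => φ e.1 e.2) F) fun Q hQ => by
    rw [hb]
    exact hF _ (hφ Q hQ)
  rw [hb] at h1
  exact h1

/-- A polynomial curve whose points over `K` lie in the closure lies in the closure. -/
theorem z_curve (hK : (K : Set E).Infinite) (P : Fin (k + 1) → I m → Polynomial E)
    (h : ∀ τ ∈ K, (fun l i => (P l i).eval τ) ∈ Helper24.HK.Zc (K : Set E) c) (τ : E) :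
    (fun l i => (P l i).eval τ) ∈ Helper24.HK.Zc (K : Set E) c := by
  intro F hF
  have nat : ∀ τ : E, eval (fun e : Fin (k + 1) × I m => (P e.1 e.2).eval τ) F =
      (aeval (fun e : Fin (k + 1) × I m => P e.1 e.2) F).eval τ := by
    intro τ
    have h1 : (Polynomial.aeval τ : Polynomial E →ₐ[E] E).comp
        (aeval fun e : Fin (k + 1) × I m => P e.1 e.2) =
        aeval fun e : Fin (k + 1) × I m => (P e.1 e.2).eval τ := by
      refine MvPolynomial.algHom_ext fun e => ?_
      simp [Polynomial.coe_aeval_eq_eval]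
    have h2 := DFunLike.congr_fun h1 F
    rw [← coe_aeval_eq_eval]
    change _ = aeval (fun e : Fin (k + 1) × I m => (P e.1 e.2).eval τ) F at h2
    rw [← Polynomial.coe_aeval_eq_eval]
    exact h2.symm
  show eval (fun e : Fin (k + 1) × I m => (P e.1 e.2).eval τ) F = 0
  rw [nat]
  have h0 : aeval (fun e : Fin (k + 1) × I m => P e.1 e.2) F = 0 := by
    refine Polynomial.eq_zero_of_infinite_isRoot _ ?_
    refine Set.Infinite.mono ?_ hK
    intro τ hτ
    show Polynomial.IsRoot _ _
    rw [Polynomial.IsRoot, ← nat]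
    exact h τ hτ F hF
  rw [h0, Polynomial.eval_zero]

theorem z_line (hK : (K : Set E).Infinite) (P0 P1 : Fin (k + 1) → I m → E) (h0 : ∀ j i, P0 j i ∈ K)
    (h1 : ∀ j i, P1 j i ∈ K) (hl : ∀ t ∈ K, OnX c (fun j i => P0 j i + t * P1 j i)) (t : E) :
    (fun j i => P0 j i + t * P1 j i) ∈ Helper24.HK.Zc (K : Set E) c := by
  have e : ∀ t : E, (fun j i => P0 j i + t * P1 j i) = fun l i =>
      (Polynomial.C (P0 l i) + Polynomial.X * Polynomial.C (P1 l i)).eval t := by
    intro t
    funext l i
    rw [Polynomial.eval_add, Polynomial.eval_mul, Polynomial.eval_C, Polynomial.eval_X,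
      Polynomial.eval_C]
  rw [e]
  refine z_curve K c hK _ (fun τ hτ => ?_) t
  rw [← e]
  exact z_cone K c ⟨fun j i => K.add_mem (h0 j i) (K.mul_mem hτ (h1 j i)), hl τ hτ⟩

/-- Scaling by elements of `K`. -/
theorem z_scale_rat {P : Fin (k + 1) → I m → E} (h : P ∈ Helper24.HK.Zc (K : Set E) c)
    (lam : Fin (k + 1) → E) (hl : ∀ j, lam j ∈ K) :
    (fun j i => lam j * P j i) ∈ Helper24.HK.Zc (K : Set E) c := by
  have h1 := z_map K c h (fun l i => C (lam l) * X (l, i)) fun Q hQ => by
    have e : (fun l i => eval (fun e : Fin (k + 1) × I m => Q e.1 e.2) (C (lam l) * X (l, i))) =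
        sc lam Q := by
      funext l i
      simp [sc]
    rw [e]
    exact ⟨fun l i => K.mul_mem (hl l) (hQ.1 l i), OnX_sc hQ.2 lam⟩
  simpa using h1

/-- Scaling of one factor. -/
theorem z_scale_one (hK : (K : Set E).Infinite) {P : Fin (k + 1) → I m → E}
    (h : P ∈ Helper24.HK.Zc (K : Set E) c) (j : Fin (k + 1)) (μ : E) :
    update P j (fun i => μ * P j i) ∈ Helper24.HK.Zc (K : Set E) c := by
  have e : ∀ μ : E, update P j (fun i => μ * P j i) =
      fun l i => ((update (fun l i => Polynomial.C (P l i)) j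
        fun i => Polynomial.X * Polynomial.C (P j i) : Fin (k + 1) → I m → Polynomial E)
          l i).eval μ := by
    intro μ
    funext l i
    by_cases h : l = j
    · subst h
      simp only [update_self, Polynomial.eval_mul, Polynomial.eval_X, Polynomial.eval_C]
    · simp [update_of_ne h]
  rw [e]
  refine z_curve K c hK _ (fun τ hτ => ?_) μ
  rw [← e]
  have h1 := z_scale_rat K c h (update 1 j τ) fun l => by
    by_cases hl : l = j
    · subst hl
      rw [update_self]
      exact hτ
    · rw [update_of_ne hl]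
      exact K.one_mem
  have h2 : (fun l i => (update 1 j τ : Fin (k + 1) → E) l * P l i) =
      update P j (fun i => τ * P j i) := sc_single j τ P
  rw [h2] at h1
  exact h1

theorem z_scale (hK : (K : Set E).Infinite) {P : Fin (k + 1) → I m → E}
    (h : P ∈ Helper24.HK.Zc (K : Set E) c) (lam : Fin (k + 1) → E) :
    (fun j i => lam j * P j i) ∈ Helper24.HK.Zc (K : Set E) c := by
  have h : ∀ s : Finset (Fin (k + 1)),
      sc (fun l => if l ∈ s then lam l else 1) P ∈ Helper24.HK.Zc (K : Set E) c := by
    intro s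
    induction s using Finset.induction_on with
    | empty =>
      have e : sc (fun l => if l ∈ (∅ : Finset (Fin (k + 1))) then lam l else 1) P = P := by
        funext l i
        simp [sc]
      rw [e]
      exact h
    | insert j s hj ih =>
      have h1 := z_scale_one K c hK ih j (lam j)
      have e : sc (fun l => if l ∈ insert j s then lam l else 1) P =
          update (sc (fun l => if l ∈ s then lam l else 1) P) j
            fun i => lam j * sc (fun l => if l ∈ s then lam l else 1) P j i := by
        funext l i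
        by_cases h : l = j
        · subst h
          simp [sc, hj]
        · simp [sc, h]
      rw [e]
      exact h1
  have h1 := h Finset.univ
  have e : sc (fun l => if l ∈ (Finset.univ : Finset (Fin (k + 1))) then lam l else 1) P =
      fun j i => lam j * P j i := by
    funext l i
    simp [sc]
  rw [e] at h1
  exact h1

/-- The involutions are defined over `K`. -/
theorem sg_mem (hc : ∀ e, c e ∈ K) {Q : Fin (k + 1) → I m → E} (hQ : ∀ l i, Q l i ∈ K)
    (j l : Fin (k + 1)) (i : I m) : sg c j Q l i ∈ K := by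
  have h := congrFun (congrFun (map_sg (fun e => (⟨c e, hc e⟩ : K)) K.subtype j
    fun l i => (⟨Q l i, hQ l i⟩ : K)) l) i
  have h2 : sg c j Q l i = K.subtype (sg (fun e => (⟨c e, hc e⟩ : K)) j
      (fun l i => (⟨Q l i, hQ l i⟩ : K)) l i) := h.symm
  rw [h2]
  exact Subtype.prop _

theorem z_sg (hc : ∀ e, c e ∈ K) {P : Fin (k + 1) → I m → E}
    (h : P ∈ Helper24.HK.Zc (K : Set E) c) (j : Fin (k + 1)) :
    sg c j P ∈ Helper24.HK.Zc (K : Set E) c := by
  have h1 := z_map K c h (sg (fun e => C (c e)) j fun l i => X (l, i)) fun Q hQ => by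
    have e : (fun l i => eval (fun e : Fin (k + 1) × I m => Q e.1 e.2)
        (sg (fun e => C (c e)) j (fun l i => (X (l, i) : MvPolynomial (Fin (k + 1) × I m) E))
          l i)) = sg c j Q := by
      funext l i
      exact eval_sg c j Q l i
    rw [e]
    exact ⟨fun l i => sg_mem K c hc hQ.1 j l i, onX_sg c j hQ.2⟩
  have e : (fun l i => eval (fun e : Fin (k + 1) × I m => P e.1 e.2)
      (sg (fun e => C (c e)) j (fun l i => (X (l, i) : MvPolynomial (Fin (k + 1) × I m) E))
        l i)) = sg c j P := by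
    funext l i
    exact eval_sg c j P l i
  rw [e] at h1
  exact h1

end Pool.Agent.Helper37.HK.P
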