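import Mathlib

/-!
# The example: the choice of the letters of the other factors
-/

set_option autoImplicit false

namespace Pool.Agent.Helper37.HK

/-- The letters: prescribed in the factor `j1`, at `none` and at `(j2, 0)`; all others are new. -/
theorem exists_zz {k m : ℕ} (j1 j2 : Fin k) (h12 : j1 ≠ j2) (z ρ : Option (Fin (m + 1)) → ℚ)
    (inj : Function.Injective z) (ne0 : ∀ b, z b ≠ 0) (hρ0 : ρ (some 0) ≠ 0)
    (hρ1 : ∀ b, ρ (some 0) ≠ z b) :
    ∃ zz : Option (Fin k × Fin (m + 1)) → ℚ, zz none = z none ∧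
      (∀ b, zz (some (j1, b)) = z (some b)) ∧ zz (some (j2, 0)) = ρ (some 0) ∧
      Function.Injective zz ∧ (∀ b, zz b ≠ 0) ∧
      ∀ q : Fin k × Fin (m + 1), q.1 ≠ j1 → q ≠ (j2, 0) →
        (∀ b, zz (some q) ≠ ρ b) ∧ ∀ b, zz (some q) ≠ z b := by
  classical
  set B : ℚ := ∑ b, (|z b| + |ρ b|) with hB
  have hb : ∀ b, |z b| + |ρ b| ≤ B := fun b =>
    Finset.single_le_sum (f := fun b => |z b| + |ρ b|) (fun b _ => by positivity)
      (Finset.mem_univ b)
  have hz : ∀ b, z b ≤ B := fun b => by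
    have := hb b
    have h1 := le_abs_self (z b)
    have h2 := abs_nonneg (ρ b)
    linarith
  have hr : ∀ b, ρ b ≤ B := fun b => by
    have := hb b
    have h1 := le_abs_self (ρ b)
    have h2 := abs_nonneg (z b)
    linarith
  have hB0 : 0 ≤ B := Finset.sum_nonneg fun b _ => by positivity
  set big : Fin k × Fin (m + 1) → ℚ := fun q => B + 1 + ((finProdFinEquiv q : Fin _) : ℕ) with hbig
  have hgt : ∀ q, B < big q := fun q => by
    have : (0 : ℚ) ≤ ((finProdFinEquiv q : Fin _) : ℕ) := Nat.cast_nonneg _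
    rw [hbig]
    show B < B + 1 + _
    linarith
  have hinj : ∀ q q', big q = big q' → q = q' := by
    intro q q' h
    have h1 : (((finProdFinEquiv q : Fin _) : ℕ) : ℚ) = ((finProdFinEquiv q' : Fin _) : ℕ) := by
      have h2 : B + 1 + (((finProdFinEquiv q : Fin _) : ℕ) : ℚ) =
          B + 1 + ((finProdFinEquiv q' : Fin _) : ℕ) := h
      linarith
    exact finProdFinEquiv.injective (Fin.ext (Nat.cast_injective h1))
  have hbz : ∀ q b, big q ≠ z b := fun q b h => by
    have h1 := hgt q
    have h2 := hz b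
    linarith
  have hbr : ∀ q b, big q ≠ ρ b := fun q b h => by
    have h1 := hgt q
    have h2 := hr b
    linarith
  have hb0 : ∀ q, big q ≠ 0 := fun q h => by
    have h1 := hgt q
    linarith
  set w : Fin k × Fin (m + 1) → ℚ := fun q =>
    if q.1 = j1 then z (some q.2) else if q = (j2, 0) then ρ (some 0) else big q with hw
  have w1 : ∀ b, w (j1, b) = z (some b) := fun b => by
    rw [hw]
    simp
  have w2 : w (j2, 0) = ρ (some 0) := by
    rw [hw]
    simp [h12.symm]
  have w3 : ∀ q : Fin k × Fin (m + 1), q.1 ≠ j1 → q ≠ (j2, 0) → w q = big q := fun q h h' => by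
    rw [hw]
    simp only [if_neg h, if_neg h']
  have hc : ∀ q : Fin k × Fin (m + 1), (∃ b, q = (j1, b) ∧ w q = z (some b)) ∨
      (q = (j2, 0) ∧ w q = ρ (some 0)) ∨ (q.1 ≠ j1 ∧ q ≠ (j2, 0) ∧ w q = big q) := by
    intro q
    by_cases h : q.1 = j1
    · left
      refine ⟨q.2, Prod.ext h rfl, ?_⟩
      have : q = (j1, q.2) := Prod.ext h rfl
      rw [this, w1]
    · by_cases h' : q = (j2, 0)
      · right
        left
        exact ⟨h', by rw [h', w2]⟩
      · right
        right
        exact ⟨h, h', w3 q h h'⟩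
  have winj : ∀ q q', w q = w q' → q = q' := by
    intro q q' h
    rcases hc q with ⟨b, e, hq⟩ | ⟨e, hq⟩ | ⟨e1, e2, hq⟩ <;>
      rcases hc q' with ⟨b', e', hq'⟩ | ⟨e', hq'⟩ | ⟨e1', e2', hq'⟩ <;> rw [hq, hq'] at h
    · rw [e, e']
      have := inj h
      rw [Option.some.inj this]
    · exact absurd h.symm (hρ1 _)
    · exact absurd h.symm (hbz _ _)
    · exact absurd h (hρ1 _)
    · rw [e, e']
    · exact absurd h.symm (hbr _ _)
    · exact absurd h (hbz _ _)
    · exact absurd h (hbr _ _)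
    · exact hinj _ _ h
  have wz : ∀ q, w q ≠ z none := by
    intro q h
    rcases hc q with ⟨b, e, hq⟩ | ⟨e, hq⟩ | ⟨e1, e2, hq⟩ <;> rw [hq] at h
    · have := inj h
      exact absurd this (by simp)
    · exact hρ1 _ h
    · exact hbz _ _ h
  have w0 : ∀ q, w q ≠ 0 := by
    intro q h
    rcases hc q with ⟨b, e, hq⟩ | ⟨e, hq⟩ | ⟨e1, e2, hq⟩ <;> rw [hq] at h
    · exact ne0 _ h
    · exact hρ0 h
    · exact hb0 _ h
  refine ⟨fun o => o.elim (z none) w, rfl, w1, w2, ?_, ?_, ?_⟩
  · intro o o' h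
    rcases o with _ | q <;> rcases o' with _ | q'
    · rfl
    · exact absurd (show z none = w q' from h).symm (wz q')
    · exact absurd (show w q = z none from h) (wz q)
    · exact congrArg some (winj q q' h)
  · intro o
    rcases o with _ | q
    · exact ne0 none
    · exact w0 q
  · intro q h h'
    refine ⟨fun b => ?_, fun b => ?_⟩
    · show w q ≠ ρ b
      rw [w3 q h h']
      exact hbr q b
    · show w q ≠ z b
      rw [w3 q h h']
      exact hbz q b

end Pool.Agent.Helper37.HK
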